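import Pool.Agent.H27.TM.TargetsA

/-! Board tm12_modules, row JN. -/

set_option autoImplicit false

open MeasureTheory
open scoped ENNReal

namespace Pool.Agent.H60.TMB.JN

open Pool.Agent.H27.TM

private theorem le_of_pow12 {a b : ℝ≥0∞} (h : a ^ 12 ≤ b ^ 12) : a ≤ b := by
  by_contra hc
  have h1 : b < a := not_le.1 hc
  have h2 : b ^ 12 < a ^ 12 := ENNReal.pow_lt_pow_left (by norm_num) h1
  exact absurd h (not_le.2 h2)

private theorem holder {ι : Type} (J : Finset ι) (A G : ι → ℝ≥0∞) :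
    ∑ j ∈ J, A j ^ 11 * G j ≤ (∑ j ∈ J, A j ^ 12) ^ (11 / 12 : ℝ) *
      (∑ j ∈ J, G j ^ 12) ^ (1 / 12 : ℝ) := by
  have hpq : (12 / 11 : ℝ).HolderConjugate 12 := by
    rw [Real.holderConjugate_iff]
    norm_num
  have h := ENNReal.inner_le_Lp_mul_Lq J (fun j => A j ^ 11) G hpq
  have e1 : ∀ j, ((A j ^ 11 : ℝ≥0∞)) ^ (12 / 11 : ℝ) = A j ^ 12 := by
    intro j
    rw [← ENNReal.rpow_natCast, ← ENNReal.rpow_mul, ← ENNReal.rpow_natCast]
    norm_num
  have e2 : ∀ j, (G j) ^ (12 : ℝ) = G j ^ 12 := by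
    intro j
    rw [← ENNReal.rpow_natCast]
    norm_num
  simp only [e1, e2] at h
  have e3 : (1 / (12 / 11) : ℝ) = 11 / 12 := by norm_num
  rw [e3] at h
  exact h

theorem pf_JN : M_JN := by
  intro α ι _ μ J F w hF
  by_cases hw : ∫⁻ a, w a ∂μ = ⊤
  · rw [hw]
    simp
  choose g hgm hgF hgi using fun j => exists_measurable_le_lintegral_eq μ (F j)
  have hgw : ∀ a, ∑ j ∈ J, g j a ^ 12 ≤ w a ^ 12 := fun a =>
    (Finset.sum_le_sum fun j _ => pow_le_pow_left' (hgF j a) 12).trans (hF a)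
  have hgw1 : ∀ j ∈ J, ∀ a, g j a ≤ w a := by
    intro j hj a
    refine le_of_pow12 (le_trans ?_ (hgw a))
    exact Finset.single_le_sum (f := fun j => g j a ^ 12) (fun _ _ => bot_le) hj
  have hroot : ∀ a, (∑ j ∈ J, g j a ^ 12) ^ (1 / 12 : ℝ) ≤ w a := by
    intro a
    have h1 : (∑ j ∈ J, g j a ^ 12) ^ (1 / 12 : ℝ) ≤ (w a ^ 12) ^ (1 / 12 : ℝ) :=
      ENNReal.rpow_le_rpow (hgw a) (by norm_num)
    refine h1.trans (le_of_eq ?_)
    rw [← ENNReal.rpow_natCast, ← ENNReal.rpow_mul]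
    norm_num
  have hA : ∀ j ∈ J, ∫⁻ a, F j a ∂μ ≤ ∫⁻ a, w a ∂μ := by
    intro j hj
    rw [hgi j]
    exact lintegral_mono fun a => hgw1 j hj a
  set A : ι → ℝ≥0∞ := fun j => ∫⁻ a, F j a ∂μ with hAdef
  set W : ℝ≥0∞ := ∫⁻ a, w a ∂μ with hW
  have hAtop : ∀ j ∈ J, A j ≠ ⊤ := fun j hj => ne_top_of_le_ne_top hw (hA j hj)
  set S : ℝ≥0∞ := ∑ j ∈ J, A j ^ 12 with hS
  have hStop : S ≠ ⊤ := by
    rw [hS]
    exact (ENNReal.sum_ne_top).2 fun j hj => ENNReal.pow_ne_top (hAtop j hj)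
  show S ≤ W ^ 12
  by_cases hS0 : S = 0
  · rw [hS0]; exact bot_le
  have hS1 : S ^ (11 / 12 : ℝ) ≠ ⊤ := ENNReal.rpow_ne_top_of_nonneg (by norm_num) hStop
  have hS2 : S ^ (11 / 12 : ℝ) ≠ 0 := by
    intro h
    rcases ENNReal.rpow_eq_zero_iff.1 h with h1 | h1
    · exact hS0 h1.1
    · exact hStop h1.1
  have key : S ≤ S ^ (11 / 12 : ℝ) * W := by
    calc S = ∑ j ∈ J, A j ^ 11 * ∫⁻ a, g j a ∂μ := by
          rw [hS]
          refine Finset.sum_congr rfl fun j _ => ?_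
          rw [pow_succ, hAdef]
          simp only
          rw [← hgi j]
      _ = ∑ j ∈ J, ∫⁻ a, A j ^ 11 * g j a ∂μ := by
          refine Finset.sum_congr rfl fun j _ => ?_
          rw [lintegral_const_mul _ (hgm j)]
      _ = ∫⁻ a, ∑ j ∈ J, A j ^ 11 * g j a ∂μ := by
          rw [lintegral_finsetSum]
          intro j _
          exact (hgm j).const_mul _
      _ ≤ ∫⁻ a, S ^ (11 / 12 : ℝ) * w a ∂μ := by
          refine lintegral_mono fun a => ?_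
          refine (holder J A (fun j => g j a)).trans ?_
          exact mul_le_mul' le_rfl (hroot a)
      _ = S ^ (11 / 12 : ℝ) * W := by
          rw [lintegral_const_mul' _ _ hS1]
  have hsplit : S = S ^ (11 / 12 : ℝ) * S ^ (1 / 12 : ℝ) := by
    rw [← ENNReal.rpow_add _ _ hS0 hStop]
    norm_num
  have h1 : S ^ (1 / 12 : ℝ) ≤ W := by
    have h2 : S ^ (11 / 12 : ℝ) * S ^ (1 / 12 : ℝ) ≤ S ^ (11 / 12 : ℝ) * W := by
      rw [← hsplit]; exact key
    exact (ENNReal.mul_le_mul_iff_right hS2 hS1).1 h2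
  calc S = (S ^ (1 / 12 : ℝ)) ^ 12 := by
        rw [← ENNReal.rpow_natCast, ← ENNReal.rpow_mul]
        norm_num
    _ ≤ W ^ 12 := pow_le_pow_left' h1 12

end Pool.Agent.H60.TMB.JN
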