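import Pool.Agent.H27.TM.TargetsG

/-! Board tm12_modules, row DU. -/

set_option autoImplicit false

open Complex

namespace Pool.Agent.H60.TMB.DU

open Pool.Agent.H27.TM

private theorem summable_mul_conj {X : Type} (f g : X → ℂ) (hf : Summable fun ν => ‖f ν‖ ^ 2)
    (hg : Summable fun ν => ‖g ν‖ ^ 2) : Summable fun ν => f ν * (starRingEnd ℂ) (g ν) := by
  refine Summable.of_norm_bounded (hf.add hg) fun ν => ?_
  rw [norm_mul, RCLike.norm_conj]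
  nlinarith [sq_nonneg (‖f ν‖ - ‖g ν‖), norm_nonneg (f ν), norm_nonneg (g ν)]

private theorem exists_unit (z : ℂ) : ∃ η : ℂ, ‖η‖ ≤ 1 ∧ η * z = (‖z‖ : ℂ) := by
  by_cases hz : z = 0
  · exact ⟨0, by simp, by simp [hz]⟩
  · refine ⟨(‖z‖ : ℂ) / z, ?_, ?_⟩
    · rw [norm_div]
      have h1 : ‖(‖z‖ : ℂ)‖ = ‖z‖ := by simp
      rw [h1, div_self (norm_ne_zero_iff.2 hz)]
    · rw [div_mul_cancel₀ _ hz]

/-- the square sum of the combination -/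
private theorem sq_bound {ι X : Type} (I : Finset ι) (S : Finset X) (E : ι → X → ℂ) (η : ι → ℂ)
    (hη : ∀ i, ‖η i‖ ≤ 1) (hE : ∀ i ∈ I, Summable (fun ν => ‖E i ν‖ ^ 2)) :
    ∑ ν ∈ S, ‖∑ i ∈ I, η i * E i ν‖ ^ 2 ≤
      ∑ i ∈ I, ∑ j ∈ I, ‖∑' ν : X, E i ν * (starRingEnd ℂ) (E j ν)‖ := by
  have hs : ∀ i ∈ I, ∀ j ∈ I, Summable fun ν => E i ν * (starRingEnd ℂ) (E j ν) :=
    fun i hi j hj => summable_mul_conj _ _ (hE i hi) (hE j hj)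
  have hexp : ∀ ν, ((‖∑ i ∈ I, η i * E i ν‖ ^ 2 : ℝ) : ℂ) =
      ∑ i ∈ I, ∑ j ∈ I, η i * (starRingEnd ℂ) (η j) * (E i ν * (starRingEnd ℂ) (E j ν)) := by
    intro ν
    have h1 : ((‖∑ i ∈ I, η i * E i ν‖ ^ 2 : ℝ) : ℂ) =
        (∑ i ∈ I, η i * E i ν) * (starRingEnd ℂ) (∑ i ∈ I, η i * E i ν) := by
      rw [Complex.mul_conj, Complex.normSq_eq_norm_sq]
    rw [h1, map_sum, Finset.sum_mul_sum]
    refine Finset.sum_congr rfl fun i _ => Finset.sum_congr rfl fun j _ => ?_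
    rw [map_mul]
    ring
  have hsum1 : ∀ i ∈ I, ∀ j ∈ I, Summable fun ν =>
      η i * (starRingEnd ℂ) (η j) * (E i ν * (starRingEnd ℂ) (E j ν)) :=
    fun i hi j hj => (hs i hi j hj).mul_left _
  have hsumC : Summable fun ν => ((‖∑ i ∈ I, η i * E i ν‖ ^ 2 : ℝ) : ℂ) := by
    simp only [hexp]
    exact summable_sum fun i hi => summable_sum fun j hj => hsum1 i hi j hj
  have hsumR : Summable fun ν => ‖∑ i ∈ I, η i * E i ν‖ ^ 2 := by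
    exact_mod_cast hsumC
  have h1 : ∑ ν ∈ S, ‖∑ i ∈ I, η i * E i ν‖ ^ 2 ≤ ∑' ν, ‖∑ i ∈ I, η i * E i ν‖ ^ 2 :=
    hsumR.sum_le_tsum S fun ν _ => sq_nonneg _
  refine h1.trans ?_
  have h2 : ((∑' ν, ‖∑ i ∈ I, η i * E i ν‖ ^ 2 : ℝ) : ℂ) =
      ∑ i ∈ I, ∑ j ∈ I, η i * (starRingEnd ℂ) (η j) *
        ∑' ν, (E i ν * (starRingEnd ℂ) (E j ν)) := by
    rw [Complex.ofReal_tsum]
    simp only [hexp]
    rw [Summable.tsum_finsetSum fun i hi => summable_sum fun j hj => hsum1 i hi j hj]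
    refine Finset.sum_congr rfl fun i hi => ?_
    rw [Summable.tsum_finsetSum fun j hj => hsum1 i hi j hj]
    refine Finset.sum_congr rfl fun j hj => ?_
    rw [tsum_mul_left]
  have h3 : ∑' ν, ‖∑ i ∈ I, η i * E i ν‖ ^ 2 =
      ‖((∑' ν, ‖∑ i ∈ I, η i * E i ν‖ ^ 2 : ℝ) : ℂ)‖ := by
    rw [Complex.norm_real, Real.norm_of_nonneg (tsum_nonneg fun ν => sq_nonneg _)]
  rw [h3, h2]
  refine (norm_sum_le _ _).trans (Finset.sum_le_sum fun i _ => ?_)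
  refine (norm_sum_le _ _).trans (Finset.sum_le_sum fun j _ => ?_)
  rw [norm_mul, norm_mul, RCLike.norm_conj]
  calc ‖η i‖ * ‖η j‖ * ‖∑' ν, E i ν * (starRingEnd ℂ) (E j ν)‖
      ≤ 1 * 1 * ‖∑' ν, E i ν * (starRingEnd ℂ) (E j ν)‖ := by
        gcongr
        · exact hη i
        · exact hη j
    _ = ‖∑' ν, E i ν * (starRingEnd ℂ) (E j ν)‖ := by ring

private theorem cs {X : Type} (S : Finset X) (b G : X → ℂ) :
    ‖∑ ν ∈ S, b ν * G ν‖ ≤ Real.sqrt (∑ ν ∈ S, ‖b ν‖ ^ 2) * Real.sqrt (∑ ν ∈ S, ‖G ν‖ ^ 2) := by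
  refine (norm_sum_le _ _).trans ?_
  simp only [norm_mul]
  exact Real.sum_mul_le_sqrt_mul_sqrt S (fun ν => ‖b ν‖) (fun ν => ‖G ν‖)

theorem pf_DU : M_DU := by
  intro ι X I S b E T hE hb hT
  have hsplit : ∀ i ∈ I, ‖∑' ν : X, b ν * E i ν‖ ≤ ‖∑ ν ∈ S, b ν * E i ν‖ + T := by
    intro i hi
    have h1 : ∑' ν : X, b ν * E i ν = ∑ ν ∈ S, b ν * E i ν +
        ∑' ν : {ν : X // ν ∉ S}, b ν * E i ν := ((hb i hi).sum_add_tsum_subtype_compl S).symm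
    rw [h1]
    refine (norm_add_le _ _).trans ?_
    have := hT i hi
    linarith
  choose η hη1 hη2 using fun i => exists_unit (∑ ν ∈ S, b ν * E i ν)
  have hmain : ∑ i ∈ I, ‖∑ ν ∈ S, b ν * E i ν‖ ≤ Real.sqrt (∑ ν ∈ S, ‖b ν‖ ^ 2) *
        Real.sqrt (∑ i ∈ I, ∑ j ∈ I, ‖∑' ν : X, E i ν * (starRingEnd ℂ) (E j ν)‖) := by
    have h1 : ((∑ i ∈ I, ‖∑ ν ∈ S, b ν * E i ν‖ : ℝ) : ℂ) =
        ∑ ν ∈ S, b ν * ∑ i ∈ I, η i * E i ν := by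
      rw [Complex.ofReal_sum]
      calc ∑ i ∈ I, ((‖∑ ν ∈ S, b ν * E i ν‖ : ℝ) : ℂ)
          = ∑ i ∈ I, η i * ∑ ν ∈ S, b ν * E i ν :=
            Finset.sum_congr rfl fun i _ => (hη2 i).symm
        _ = ∑ i ∈ I, ∑ ν ∈ S, b ν * (η i * E i ν) := by
            refine Finset.sum_congr rfl fun i _ => ?_
            rw [Finset.mul_sum]
            exact Finset.sum_congr rfl fun ν _ => by ring
        _ = ∑ ν ∈ S, b ν * ∑ i ∈ I, η i * E i ν := by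
            rw [Finset.sum_comm]
            exact Finset.sum_congr rfl fun ν _ => by rw [Finset.mul_sum]
    have h2 : ∑ i ∈ I, ‖∑ ν ∈ S, b ν * E i ν‖ = ‖∑ ν ∈ S, b ν * ∑ i ∈ I, η i * E i ν‖ := by
      rw [← h1, Complex.norm_real, Real.norm_of_nonneg (Finset.sum_nonneg fun i _ => norm_nonneg _)]
    rw [h2]
    refine (cs S b _).trans ?_
    exact mul_le_mul_of_nonneg_left (Real.sqrt_le_sqrt (sq_bound I S E η hη1 hE))
      (Real.sqrt_nonneg _)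
  calc ∑ i ∈ I, ‖∑' ν : X, b ν * E i ν‖ ≤ ∑ i ∈ I, (‖∑ ν ∈ S, b ν * E i ν‖ + T) :=
        Finset.sum_le_sum hsplit
    _ = (I.card : ℝ) * T + ∑ i ∈ I, ‖∑ ν ∈ S, b ν * E i ν‖ := by
        rw [Finset.sum_add_distrib, Finset.sum_const, nsmul_eq_mul]
        ring
    _ ≤ _ := by linarith

end Pool.Agent.H60.TMB.DU
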